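import Mathlib

/-!
MP_6e2a57_co (Tverberg-Vrecica), negation S09380: interface of the disproof.

`E = R^4`.  Everything is considered modulo a vector `u ≠ 0` of `E` (so we work in the 3-dimensional
quotient `E / u`), but all values are represented by elements of `E`.

* `RadonMod u y x` : `x` is (mod `u`) a Radon point of the five points `y 0, ..., y 4`.
* `Term` : finite circuits; `Val η u t x` : `x` is a possible value of the circuit `t` at `u`; the inputs
  of gates may be disturbed by noise of size at most `η` (this makes the points distinct in part (A)).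
* `Tv u x` : the nine points `x l` have a 3-Tverberg partition for `0` modulo `u`.
* `Tv3 v` : nine vectors of `R^3` split in three sets each having `0` in the convex hull.
-/

namespace Pool.Agent.H69.TV

abbrev E := Fin 4 → ℝ
abbrev R3 := Fin 3 → ℝ

/-- `x` is a Radon point of the five points `y`, modulo multiples of `u`. -/
def RadonMod (u : E) (y : Fin 5 → E) (x : E) : Prop :=
  ∃ A : Set (Fin 5),
    (∃ a ∈ convexHull ℝ (y '' A), ∃ c : ℝ, x = a + c • u) ∧
    (∃ b ∈ convexHull ℝ (y '' Aᶜ), ∃ c : ℝ, x = b + c • u)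

inductive Term : Type
  | const (b : E) : Term
  | add (s t : Term) : Term
  | smul (r : ℝ) (t : Term) : Term
  | clamp (p : Fin 4 → E) (hp : Function.Injective p) (w : Term) : Term
  | glue (w : Fin 5 → Term) : Term

/-- possible values of a term at `u`, with noise at most `η` at the inputs of gates. -/
def Val (η : ℝ) (u : E) : Term → E → Prop
  | .const b, x => ∃ c : ℝ, x = b + c • u
  | .add s t, x => ∃ y z : E, Val η u s y ∧ Val η u t z ∧ ∃ c : ℝ, x = y + z + c • u
  | .smul r t, x => ∃ y : E, Val η u t y ∧ ∃ c : ℝ, x = r • y + c • u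
  | .clamp p _ w, x => ∃ y : E, Val η u w y ∧ ∃ δ : E, ‖δ‖ ≤ η ∧
      RadonMod u (Fin.snoc (α := fun _ => E) p (y + δ)) x
  | .glue w, x => ∃ y : Fin 5 → E, (∀ i, Val η u (w i) (y i)) ∧ ∃ δ : Fin 5 → E,
      (∀ i, ‖δ i‖ ≤ η) ∧ RadonMod u (fun i => y i + δ i) x

/-- the nine points `x l` have a Tverberg partition in three parts around `0`, modulo `u`. -/
def Tv (u : E) (x : Fin 9 → E) : Prop :=
  ∃ c : Fin 9 → Fin 3, ∀ j, ∃ a ∈ convexHull ℝ (x '' {l | c l = j}), ∃ r : ℝ, a = r • u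

/-- nine vectors in `R^3` split into three sets with `0` in each convex hull. -/
def Tv3 (v : Fin 9 → R3) : Prop :=
  ∃ c : Fin 9 → Fin 3, ∀ j, (0 : R3) ∈ convexHull ℝ (v '' {l | c l = j})

/-- the frozen statement S09379. -/
def Statement : Prop :=
    ∀ (d k : ℕ), k + 1 ≤ d → ∀ (r : Fin (k + 1) → ℕ), (∀ i, 1 ≤ r i) →
    ∀ (S : Fin (k + 1) → Finset (EuclideanSpace ℝ (Fin d))),
      (∀ i, (S i).card = (r i - 1) * (d - k + 1) + 1) →
      ∃ c : Fin (k + 1) → EuclideanSpace ℝ (Fin d) → ℕ,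
        (∀ i, ∀ x ∈ S i, c i x < r i) ∧
        (∀ i, ∀ j < r i, ∃ x ∈ S i, c i x = j) ∧
        ∃ D : AffineSubspace ℝ (EuclideanSpace ℝ (Fin d)),
          Module.finrank ℝ D.direction = k ∧
          ∀ i, ∀ j < r i,
            ((D : Set (EuclideanSpace ℝ (Fin d))) ∩
              convexHull ℝ {x | x ∈ S i ∧ c i x = j}).Nonempty

/-- conclusion of part (A). -/
def PartA : Prop :=
  ∀ (t : Fin 9 → Term) (η : ℝ), 0 < η →
    ∃ u : E, ‖u‖ = 1 ∧ ∃ x : Fin 9 → E, (∀ l, ∃ y, Val η u (t l) y ∧ ‖x l - y‖ ≤ η) ∧ Tv u x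

/-- conclusion of part (B): every continuous section is approximated by a term. -/
def PartB : Prop :=
  ∀ (s : E → E), ContinuousOn s {0}ᶜ → (∀ (c : ℝ) (u : E), c ≠ 0 → s (c • u) = s u) →
    ∀ ε : ℝ, 0 < ε → ∃ t : Term, ∃ η : ℝ, 0 < η ∧ ∀ u : E, ‖u‖ = 1 → ∀ x, Val η u t x →
      ∃ c : ℝ, ‖x - s u - c • u‖ < ε

/-- part (C): an odd map that is nowhere 3-Tverberg. -/
def PartC : Prop :=
  ∃ f : E → Fin 9 → R3, Continuous f ∧ (∀ u, f (-u) = -f u) ∧ ∀ u, u ≠ 0 → ¬ Tv3 (f u)

end Pool.Agent.H69.TV
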