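import Pool.Agent.H69.TV.Defs

/-! The chart `hc c u = 1`. All statements are elementary.

* `hc` is linear; `hc c (th c τ) = 1`; `hc c (io c p) = 0`; `nu c u (io c p) = p`;
  `nu c u` is linear and kills `u` if `hc c u = 1` (`nu c u u = (1 - 1) u`).
* `nu_neg_e0`: `nu c (th c τ) (-e_0) = τ` with `e_0 = Pi.single 0 1`  (`hc c (-e_0) = -1`,
  `(-e_0) j.succ = 0`).
* `sub_eq_io`: `x - s - (hc c x - hc c s) • u = io c (nu c u x - nu c u s)` if `hc c u = 1`
  (check the coordinates: coordinate `j.succ` is the definition; coordinate 0 follows since both sides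
  are in the kernel of `hc c`).
* `norm_nu_le`: `|x j.succ - hc c x * u j.succ| ≤ ‖x‖ + (1+∑|c j|) ‖x‖ ‖u‖`.
* `th_of`: if `hc c u ≠ 0` then `u = (hc c u) • th c (fun j => u j.succ / hc c u)`.
* `radon_nu`: apply the linear map `nu c u` (image of a convex hull, `LinearMap.image_convexHull` or
  `convexHull_image`), using that it kills `u`.
-/

namespace Pool.Agent.H69.TV

theorem hc_add (c : R3) (x y : E) : hc c (x + y) = hc c x + hc c y := by
  simp only [hc, Pi.add_apply, mul_add, Finset.sum_add_distrib]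
  ring

theorem hc_smul (c : R3) (r : ℝ) (x : E) : hc c (r • x) = r * hc c x := by
  simp only [hc, Pi.smul_apply, smul_eq_mul, mul_add, Finset.mul_sum]
  congr 1
  refine Finset.sum_congr rfl ?_
  intro j _
  ring

theorem hc_th (c τ : R3) : hc c (th c τ) = 1 := by
  simp only [hc, th, Fin.cons_zero, Fin.cons_succ]
  ring

theorem hc_io (c p : R3) : hc c (io c p) = 0 := by
  simp only [hc, io, Fin.cons_zero, Fin.cons_succ]
  ring

theorem nu_io (c : R3) (u : E) (p : R3) : nu c u (io c p) = p := by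
  funext j
  have h1 := hc_io c p
  unfold nu
  rw [h1, zero_mul, sub_zero]
  simp only [io, Fin.cons_succ]

theorem nu_add (c : R3) (u x y : E) : nu c u (x + y) = nu c u x + nu c u y := by
  funext j
  simp only [nu, hc_add, Pi.add_apply]
  ring

theorem nu_smul (c : R3) (u : E) (r : ℝ) (x : E) : nu c u (r • x) = r • nu c u x := by
  funext j
  simp only [nu, hc_smul, Pi.smul_apply, smul_eq_mul]
  ring

theorem nu_self {c : R3} {u : E} (hu : hc c u = 1) : nu c u u = 0 := by
  funext j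
  simp only [nu, hu, one_mul, sub_self, Pi.zero_apply]

theorem nu_neg_e0 (c τ : R3) : nu c (th c τ) (-(Pi.single 0 1 : E)) = τ := by
  have h1 : hc c (-(Pi.single 0 1 : E)) = -1 := by
    simp [hc]
  funext j
  simp only [nu, h1]
  simp [th]

theorem sub_eq_io {c : R3} {u : E} (hu : hc c u = 1) (x s : E) :
    x - s - (hc c x - hc c s) • u = io c (nu c u x - nu c u s) := by
  have h1 : hc c (x - s - (hc c x - hc c s) • u) = 0 := by
    have e1 : x - s - (hc c x - hc c s) • u = x + (-1 : ℝ) • s + (-(hc c x - hc c s)) • u := by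
      funext i
      simp only [Pi.sub_apply, Pi.add_apply, Pi.smul_apply, smul_eq_mul]
      ring
    rw [e1, hc_add, hc_add, hc_smul, hc_smul, hu]
    ring
  have h2 : ∀ j : Fin 3, (x - s - (hc c x - hc c s) • u) j.succ = (nu c u x - nu c u s) j := by
    intro j
    simp only [Pi.sub_apply, Pi.smul_apply, smul_eq_mul, nu]
    ring
  have h3 : (x - s - (hc c x - hc c s) • u) 0 = -∑ j, c j * (nu c u x - nu c u s) j := by
    have h4 := h1
    unfold hc at h4
    have h5 : ∑ j : Fin 3, c j * (x - s - (hc c x - hc c s) • u) j.succ =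
        ∑ j, c j * (nu c u x - nu c u s) j :=
      Finset.sum_congr rfl (fun j _ => by rw [h2 j])
    unfold hc at h5
    rw [h5] at h4
    unfold hc
    linarith
  funext i
  refine Fin.cases ?_ (fun j => ?_) i
  · rw [h3]
    simp only [io, Fin.cons_zero]
  · rw [h2 j]
    simp only [io, Fin.cons_succ]

private theorem Chart_sum_le (c p : R3) : |∑ j, c j * p j| ≤ (∑ j, |c j|) * ‖p‖ := by
  refine le_trans (Finset.abs_sum_le_sum_abs _ _) ?_
  rw [Finset.sum_mul]
  refine Finset.sum_le_sum ?_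
  intro j _
  rw [abs_mul]
  exact mul_le_mul_of_nonneg_left (norm_le_pi_norm p j) (abs_nonneg _)

private theorem Chart_sum_nonneg (c : R3) : 0 ≤ ∑ j, |c j| :=
  Finset.sum_nonneg (fun _ _ => abs_nonneg _)

private theorem Chart_hc_le (c : R3) (x : E) : |hc c x| ≤ (1 + ∑ j, |c j|) * ‖x‖ := by
  have h1 := Chart_sum_le c (fun j => x j.succ)
  have h2 : ‖(fun j : Fin 3 => x j.succ)‖ ≤ ‖x‖ := by
    rw [pi_norm_le_iff_of_nonneg (norm_nonneg _)]
    intro j
    exact norm_le_pi_norm x j.succ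
  have h3 : |x 0| ≤ ‖x‖ := norm_le_pi_norm x 0
  have h4 := Chart_sum_nonneg c
  calc |hc c x| ≤ |x 0| + |∑ j : Fin 3, c j * x j.succ| := abs_add_le _ _
    _ ≤ ‖x‖ + (∑ j, |c j|) * ‖(fun j : Fin 3 => x j.succ)‖ := add_le_add h3 h1
    _ ≤ ‖x‖ + (∑ j, |c j|) * ‖x‖ := by
        have := mul_le_mul_of_nonneg_left h2 h4
        linarith
    _ = _ := by ring

theorem norm_io_le (c p : R3) : ‖io c p‖ ≤ (1 + ∑ j, |c j|) * ‖p‖ := by
  have h4 := Chart_sum_nonneg c
  have h5 := norm_nonneg p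
  have h6 : 0 ≤ (∑ j, |c j|) * ‖p‖ := mul_nonneg h4 h5
  rw [pi_norm_le_iff_of_nonneg (by positivity)]
  intro i
  refine Fin.cases ?_ (fun j => ?_) i
  · simp only [io, Fin.cons_zero, norm_neg, Real.norm_eq_abs]
    have h1 := Chart_sum_le c p
    linarith
  · simp only [io, Fin.cons_succ]
    have h1 := norm_le_pi_norm p j
    linarith

theorem norm_nu_le (c : R3) (u x : E) : ‖nu c u x‖ ≤ (1 + (1 + ∑ j, |c j|) * ‖u‖) * ‖x‖ := by
  have h4 := Chart_sum_nonneg c
  have h5 := norm_nonneg u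
  have h6 := norm_nonneg x
  rw [pi_norm_le_iff_of_nonneg (by positivity)]
  intro j
  have h1 := Chart_hc_le c x
  have h2 : |u j.succ| ≤ ‖u‖ := norm_le_pi_norm u j.succ
  have h3 : |x j.succ| ≤ ‖x‖ := norm_le_pi_norm x j.succ
  have h7 : |hc c x * u j.succ| ≤ (1 + ∑ j, |c j|) * ‖x‖ * ‖u‖ := by
    rw [abs_mul]
    exact mul_le_mul h1 h2 (abs_nonneg _) (by positivity)
  calc ‖nu c u x j‖ = |x j.succ - hc c x * u j.succ| := rfl
    _ ≤ |x j.succ| + |hc c x * u j.succ| := abs_sub _ _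
    _ ≤ ‖x‖ + (1 + ∑ j, |c j|) * ‖x‖ * ‖u‖ := add_le_add h3 h7
    _ = _ := by ring

theorem norm_th_le (c τ : R3) : ‖th c τ‖ ≤ 1 + (1 + ∑ j, |c j|) * ‖τ‖ := by
  have h4 := Chart_sum_nonneg c
  have h5 := norm_nonneg τ
  have h6 : 0 ≤ (∑ j, |c j|) * ‖τ‖ := mul_nonneg h4 h5
  rw [pi_norm_le_iff_of_nonneg (by positivity)]
  intro i
  refine Fin.cases ?_ (fun j => ?_) i
  · simp only [th, Fin.cons_zero, Real.norm_eq_abs]
    have h1 := Chart_sum_le c τ
    have h2 : |1 - ∑ j, c j * τ j| ≤ |(1 : ℝ)| + |∑ j, c j * τ j| := abs_sub _ _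
    rw [abs_one] at h2
    linarith
  · simp only [th, Fin.cons_succ]
    have h1 := norm_le_pi_norm τ j
    linarith

theorem continuous_th (c : R3) : Continuous (th c) := by
  refine continuous_pi ?_
  intro i
  refine Fin.cases ?_ (fun j => ?_) i
  · simp only [th, Fin.cons_zero]
    fun_prop
  · simp only [th, Fin.cons_succ]
    fun_prop

theorem th_ne_zero (c τ : R3) : th c τ ≠ 0 := by
  intro h
  have h1 := hc_th c τ
  rw [h] at h1
  simp [hc] at h1

theorem th_of {c : R3} {u : E} (hu : hc c u ≠ 0) :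
    u = (hc c u) • th c (fun j => u j.succ / hc c u) := by
  funext i
  refine Fin.cases ?_ (fun j => ?_) i
  · have h1 : ∑ j : Fin 3, c j * (u j.succ / hc c u) = (∑ j : Fin 3, c j * u j.succ) / hc c u := by
      rw [Finset.sum_div]
      refine Finset.sum_congr rfl ?_
      intro j _
      ring
    have h2 : ∑ j : Fin 3, c j * u j.succ = hc c u - u 0 := by
      unfold hc
      ring
    simp only [Pi.smul_apply, smul_eq_mul, th, Fin.cons_zero]
    rw [h1, h2]
    field_simp
    ring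
  · simp only [Pi.smul_apply, smul_eq_mul, th, Fin.cons_succ]
    field_simp

theorem radon_nu {c : R3} {u : E} (hu : hc c u = 1) {y : Fin 5 → E} {x : E} (h : RadonMod u y x) :
    ∃ A : Set (Fin 5), nu c u x ∈ convexHull ℝ ((fun i => nu c u (y i)) '' A) ∧
      nu c u x ∈ convexHull ℝ ((fun i => nu c u (y i)) '' Aᶜ) := by
  let f : E →ₗ[ℝ] R3 :=
    { toFun := nu c u
      map_add' := nu_add c u
      map_smul' := nu_smul c u }
  have hf : ∀ z, f z = nu c u z := fun _ => rfl
  have key : ∀ B : Set (Fin 5), (∃ a ∈ convexHull ℝ (y '' B), ∃ r : ℝ, x = a + r • u) →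
      nu c u x ∈ convexHull ℝ ((fun i => nu c u (y i)) '' B) := by
    rintro B ⟨a, ha, r, rfl⟩
    rw [nu_add, nu_smul, nu_self hu, smul_zero, add_zero]
    have h1 : (fun i => nu c u (y i)) '' B = f '' (y '' B) := by
      rw [Set.image_image]
      rfl
    rw [h1, ← LinearMap.image_convexHull]
    exact ⟨a, ha, rfl⟩
  obtain ⟨A, h1, h2⟩ := h
  exact ⟨A, key A h1, key Aᶜ h2⟩

end Pool.Agent.H69.TV
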