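import Pool.Agent.H69.TV.Basic

/-! Definitions for part (B). -/

namespace Pool.Agent.H69.TV

/-- `x` is `ε`-close to `s` modulo multiples of `u`. -/
def Near (u s : E) (ε : ℝ) (x : E) : Prop := ∃ c : ℝ, ‖x - s - c • u‖ < ε

/-- the 25 linear functionals of the charts. -/
def hf (i : ℕ) (u : E) : ℝ := u 0 + (i : ℝ) * u 1 + (i : ℝ) ^ 2 * u 2 + (i : ℝ) ^ 3 * u 3

/-- the tree of 6 glue gates with 25 leaves. -/
def tree (t : Fin 5 → Fin 5 → Term) : Term := .glue fun a => .glue fun b => t a b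

/-! the chart `h_c(u) = 1`, where `h_c(u) = u_0 + ∑ c_j u_{j+1}`; it is parametrised by `τ ∈ R^3`. -/

def hc (c : R3) (u : E) : ℝ := u 0 + ∑ j : Fin 3, c j * u j.succ

def th (c τ : R3) : E := Fin.cons (α := fun _ => ℝ) (1 - ∑ j, c j * τ j) τ

/-- normal form of `x` modulo `u` (if `hc c u = 1`). -/
def nu (c : R3) (u x : E) : R3 := fun j => x j.succ - hc c x * u j.succ

def io (c p : R3) : E := Fin.cons (α := fun _ => ℝ) (-∑ j, c j * p j) p

/-- a non degenerate simplex in `R^3` with its barycentric coordinates. -/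
structure Simp where
  P : Fin 4 → R3
  L : Fin 4 → (R3 →ₗ[ℝ] ℝ)
  b : Fin 4 → ℝ
  sum : ∀ x, ∑ i, (L i x + b i) = 1
  rep : ∀ x, ∑ i, (L i x + b i) • P i = x
  dual : ∀ i j, L i (P j) + b i = if i = j then 1 else 0

def Simp.β (S : Simp) (i : Fin 4) (x : R3) : ℝ := S.L i x + S.b i

/-- the unique Radon point of `P 0, ..., P 3, x`. -/
noncomputable def Simp.cl (S : Simp) (x : R3) : R3 :=
  (∑ i, max (S.β i x) 0)⁻¹ • ∑ i, max (S.β i x) 0 • S.P i

/-- `s` is uniformly approximated by values of terms on the part `‖τ‖ ≤ R` of the chart `c`. -/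
def App (c : R3) (R : ℝ) (s : R3 → R3) : Prop :=
  ∀ ε : ℝ, 0 < ε → ∃ t : Term, ∃ η : ℝ, 0 < η ∧
    ∀ τ : R3, ‖τ‖ ≤ R → ∀ x, Val η (th c τ) t x → ‖nu c (th c τ) x - s τ‖ < ε

end Pool.Agent.H69.TV
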