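import Pool.Agent.H69.TV.Simplex

/-! The simplex for `τ ↦ max τ 0` in direction `e_j`.

PROOF. For `j = 0`: `P 0 = 0, P 1 = T(1,1,0), P 2 = T(1,0,1), P 3 = T(1,-1,-1)`,
`β 3 = (x0 - x1 - x2)/(3T)`, `β 1 = β 3 + x1/T`, `β 2 = β 3 + x2/T`, `β 0 = 1 - x0/T`.
On `x = τ e_0`: `β 1 = β 2 = β 3 = τ/(3T)`, `β 0 = 1 - τ/T`. For `0 ≤ τ ≤ T` all are `≥ 0`, their sum
is 1 and `cl x = x` (by `rep`); for `τ < 0` only `β 0 > 0` and `cl x = P 0 = 0`.
General `j`: permute the coordinates (e.g. a lemma `Simp.map (g : R3 ≃ₗ[ℝ] R3) (S : Simp) : Simp` with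
`(S.map g).cl (g x) = g (S.cl x)`), or write the three simplices explicitly (`fin_cases j`).
-/

namespace Pool.Agent.H69.TV

/-- the simplex with permuted coordinates. -/
def reluPerm (σ : Equiv.Perm (Fin 3)) (S : Simp) : Simp where
  P i := S.P i ∘ σ
  L i := (S.L i).comp (LinearMap.funLeft ℝ ℝ σ.symm)
  b := S.b
  sum x := S.sum (x ∘ σ.symm)
  rep x := by
    have h := S.rep (x ∘ σ.symm)
    funext k
    have h1 := congrFun h (σ k)
    simp only [Finset.sum_apply, Pi.smul_apply, Function.comp_apply, Equiv.symm_apply_apply,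
      smul_eq_mul] at h1 ⊢
    exact h1
  dual i j := by
    have h := S.dual i j
    have e : (LinearMap.funLeft ℝ ℝ σ.symm) (S.P j ∘ σ) = S.P j := by
      funext k
      simp [LinearMap.funLeft_apply]
    simp only [LinearMap.comp_apply, e]
    exact h

theorem reluPerm_cl (σ : Equiv.Perm (Fin 3)) (S : Simp) (x : R3) :
    (reluPerm σ S).cl (x ∘ σ) = S.cl x ∘ σ := by
  have e : ∀ i, (reluPerm σ S).β i (x ∘ σ) = S.β i x := by
    intro i
    have e1 : (LinearMap.funLeft ℝ ℝ σ.symm) (x ∘ σ) = x := by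
      funext k
      simp [LinearMap.funLeft_apply]
    simp only [Simp.β, reluPerm, LinearMap.comp_apply, e1]
  funext k
  simp only [Simp.cl, e, Pi.smul_apply, Finset.sum_apply, Function.comp_apply, smul_eq_mul]
  rfl

/-- a linear functional with given coefficients. -/
def reluLf (a b c : ℝ) : R3 →ₗ[ℝ] ℝ where
  toFun x := a * x 0 + b * x 1 + c * x 2
  map_add' x y := by simp only [Pi.add_apply]; ring
  map_smul' r x := by simp only [Pi.smul_apply, smul_eq_mul, RingHom.id_apply]; ring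

theorem reluLf_apply (a b c : ℝ) (x : R3) : reluLf a b c x = a * x 0 + b * x 1 + c * x 2 := rfl

/-- the base simplex. -/
noncomputable def reluBase (T : ℝ) (hT : 0 < T) : Simp where
  P := ![0, ![T, T, 0], ![T, 0, T], ![T, -T, -T]]
  L := ![reluLf (-T⁻¹) 0 0,
    reluLf (3 * T)⁻¹ (T⁻¹ - (3 * T)⁻¹) (-(3 * T)⁻¹),
    reluLf (3 * T)⁻¹ (-(3 * T)⁻¹) (T⁻¹ - (3 * T)⁻¹),
    reluLf (3 * T)⁻¹ (-(3 * T)⁻¹) (-(3 * T)⁻¹)]
  b := ![1, 0, 0, 0]
  sum x := by
    have hT' := hT.ne'
    simp only [Fin.sum_univ_four]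
    simp [reluLf_apply]
    field_simp
    ring
  rep x := by
    have hT' := hT.ne'
    funext k
    simp only [Fin.sum_univ_four]
    fin_cases k
    · simp [reluLf_apply]
      field_simp
      ring
    · simp [reluLf_apply]
      field_simp
      ring
    · simp [reluLf_apply]
      field_simp
      ring
  dual i j := by
    have hT' := hT.ne'
    fin_cases i <;> fin_cases j <;> simp [reluLf_apply] <;> field_simp <;> norm_num

theorem reluBase_cl (T : ℝ) (hT : 0 < T) (τ : ℝ) (hτ : τ ≤ T) :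
    (reluBase T hT).cl (Pi.single 0 τ) = Pi.single 0 (max τ 0) := by
  have hT' := hT.ne'
  have b0 : (reluBase T hT).β 0 (Pi.single 0 τ) = 1 - T⁻¹ * τ := by
    simp [Simp.β, reluBase, reluLf_apply]; ring
  have b1 : (reluBase T hT).β 1 (Pi.single 0 τ) = (3 * T)⁻¹ * τ := by
    simp [Simp.β, reluBase, reluLf_apply]
  have b2 : (reluBase T hT).β 2 (Pi.single 0 τ) = (3 * T)⁻¹ * τ := by
    simp [Simp.β, reluBase, reluLf_apply]
  have b3 : (reluBase T hT).β 3 (Pi.single 0 τ) = (3 * T)⁻¹ * τ := by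
    simp [Simp.β, reluBase, reluLf_apply]
  have h0 : 0 ≤ 1 - T⁻¹ * τ := by
    have : T⁻¹ * τ ≤ T⁻¹ * T := mul_le_mul_of_nonneg_left hτ (by positivity)
    rw [inv_mul_cancel₀ hT'] at this
    linarith
  rcases le_total 0 τ with h | h
  · have h1 : 0 ≤ (3 * T)⁻¹ * τ := by positivity
    have hs : ∀ i, max ((reluBase T hT).β i (Pi.single 0 τ)) 0
        = (reluBase T hT).L i (Pi.single 0 τ) + (reluBase T hT).b i := by
      intro i
      have : (reluBase T hT).L i (Pi.single 0 τ) + (reluBase T hT).b i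
        = (reluBase T hT).β i (Pi.single 0 τ) := rfl
      rw [this]
      fin_cases i
      · exact max_eq_left (by rw [show ((⟨0, by omega⟩ : Fin 4)) = 0 from rfl, b0]; exact h0)
      · exact max_eq_left (by rw [show ((⟨1, by omega⟩ : Fin 4)) = 1 from rfl, b1]; exact h1)
      · exact max_eq_left (by rw [show ((⟨2, by omega⟩ : Fin 4)) = 2 from rfl, b2]; exact h1)
      · exact max_eq_left (by rw [show ((⟨3, by omega⟩ : Fin 4)) = 3 from rfl, b3]; exact h1)
    unfold Simp.cl
    simp only [hs]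
    rw [(reluBase T hT).sum, (reluBase T hT).rep, max_eq_left h]
    simp
  · have h1 : (3 * T)⁻¹ * τ ≤ 0 := mul_nonpos_of_nonneg_of_nonpos (by positivity) h
    unfold Simp.cl
    simp only [Fin.sum_univ_four, b0, b1, b2, b3, max_eq_right h1, max_eq_right h]
    simp [reluBase]

theorem exists_relu (j : Fin 3) (T : ℝ) (hT : 0 < T) :
    ∃ S : Simp, ∀ τ : ℝ, τ ≤ T → S.cl (Pi.single j τ) = Pi.single j (max τ 0) := by
  refine ⟨reluPerm (Equiv.swap 0 j) (reluBase T hT), ?_⟩
  intro τ hτ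
  have e : ∀ t : ℝ, (Pi.single j t : R3) = (Pi.single (0 : Fin 3) t : R3) ∘ (Equiv.swap 0 j) := by
    intro t
    funext k
    by_cases hk : k = j
    · subst hk
      simp
    · rw [Pi.single_eq_of_ne hk]
      have : (Equiv.swap 0 j) k ≠ 0 := by
        intro h0
        have := congrArg (Equiv.swap 0 j) h0
        simp at this
        exact hk this
      simp only [Function.comp_apply]
      rw [Pi.single_eq_of_ne this]
  rw [e τ, reluPerm_cl, reluBase_cl T hT τ hτ, e]

end Pool.Agent.H69.TV
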