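import Pool.Agent.H69.TV.AppBasic
import Pool.Agent.H69.TV.Relu
import Pool.Agent.H69.TV.Sep

/-! Every continuous map is approximable on the chart.

PROOF. Fix `c, R, j`. Let `K = Metric.closedBall (0 : R3) R` (compact), and
`L = {f : C(K, ℝ) | App c R (fun τ => Pi.single j (f̃ τ))}` where `f̃ τ = if h : τ ∈ K then f ⟨τ, h⟩ else 0`
(`App` only looks at `‖τ‖ ≤ R`; prove a congruence lemma `App.congr`).
* `L` is a vector space (`App.add`, `App.smul`, `Pi.single_add`, ...), contains constants (`App.const`).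
* `f ∈ L → f ⊔ 0 ∈ L`: `T` a bound of `|f|` plus 1, `exists_relu j T`, `App.comp_cl`.
* `f ⊔ g = f + (g - f) ⊔ 0`, `f ⊓ g = f - (f - g) ⊔ 0`.
* `L` is closed (`App.lim`).
* `SeparatesPointsStrongly`: for `x ≠ y` in `K` take `f` from `exists_sep` (`App.comp_cl` of `App.id`, minus the
  constant `p`), `f x ≠ f y`; a combination `α f + β` takes prescribed values `v x`, `v y`; for `x = y` a constant.
* `ContinuousMap.sublattice_closure_eq_top` (needs `CompactSpace K`): `closure L = ⊤`, `L` closed, so every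
  `f ∈ L`.
* For continuous `s : R3 → R3`: `s τ = ∑ j, Pi.single j (s τ j)`.
-/

namespace Pool.Agent.H69.TV

theorem App.congr {c : R3} {R : ℝ} {s s' : R3 → R3} (h : App c R s)
    (hss : ∀ τ, ‖τ‖ ≤ R → s τ = s' τ) : App c R s' := by
  intro ε hε
  obtain ⟨t, η, hη, ht⟩ := h ε hε
  refine ⟨t, η, hη, fun τ hτ x hx => ?_⟩
  rw [← hss τ hτ]
  exact ht τ hτ x hx

/-- the extension by zero of a function on the closed ball -/
private noncomputable def dfe (R : ℝ) (f : C(Metric.closedBall (0 : R3) R, ℝ)) (τ : R3) : ℝ :=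
  open Classical in if h : τ ∈ Metric.closedBall (0 : R3) R then f ⟨τ, h⟩ else 0

private theorem dfe_eq (R : ℝ) (f : C(Metric.closedBall (0 : R3) R, ℝ)) (τ : R3)
    (h : τ ∈ Metric.closedBall (0 : R3) R) : dfe R f τ = f ⟨τ, h⟩ := by
  unfold dfe
  rw [dif_pos h]

private def dL (c : R3) (R : ℝ) (j : Fin 3) : Set C(Metric.closedBall (0 : R3) R, ℝ) :=
  {f | App c R (fun τ => Pi.single j (dfe R f τ))}

private theorem mem_ball {R : ℝ} {τ : R3} (h : ‖τ‖ ≤ R) : τ ∈ Metric.closedBall (0 : R3) R := by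
  simpa using h

private theorem dL_add {c : R3} {R : ℝ} {j : Fin 3} {f g : C(Metric.closedBall (0 : R3) R, ℝ)}
    (hf : f ∈ dL c R j) (hg : g ∈ dL c R j) : f + g ∈ dL c R j := by
  refine App.congr (App.add hf hg) fun τ hτ => ?_
  rw [dfe_eq R _ _ (mem_ball hτ), dfe_eq R _ _ (mem_ball hτ), dfe_eq R _ _ (mem_ball hτ)]
  rw [← Pi.single_add]
  rfl

private theorem dL_smul {c : R3} {R : ℝ} {j : Fin 3} {f : C(Metric.closedBall (0 : R3) R, ℝ)}
    (r : ℝ) (hf : f ∈ dL c R j) : r • f ∈ dL c R j := by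
  refine App.congr (App.smul r hf) fun τ hτ => ?_
  rw [dfe_eq R _ _ (mem_ball hτ), dfe_eq R _ _ (mem_ball hτ)]
  rw [← Pi.single_smul]
  rfl

private theorem dL_const {c : R3} {R : ℝ} {j : Fin 3} (r : ℝ) :
    (ContinuousMap.const _ r : C(Metric.closedBall (0 : R3) R, ℝ)) ∈ dL c R j := by
  refine App.congr (App.const c R (Pi.single j r)) fun τ hτ => ?_
  rw [dfe_eq R _ _ (mem_ball hτ)]
  rfl

private theorem dL_relu {c : R3} {R : ℝ} {j : Fin 3} [CompactSpace (Metric.closedBall (0 : R3) R)]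
    {f : C(Metric.closedBall (0 : R3) R, ℝ)} (hf : f ∈ dL c R j) : f ⊔ 0 ∈ dL c R j := by
  obtain ⟨S, hS⟩ := exists_relu j (‖f‖ + 1) (by positivity)
  refine App.congr (App.comp_cl S hf) fun τ hτ => ?_
  rw [dfe_eq R _ _ (mem_ball hτ), dfe_eq R _ _ (mem_ball hτ)]
  rw [hS]
  · rfl
  · have h1 := ContinuousMap.norm_coe_le_norm f ⟨τ, mem_ball hτ⟩
    rw [Real.norm_eq_abs] at h1
    have h2 := le_abs_self (f ⟨τ, mem_ball hτ⟩)
    linarith

private theorem dL_sup {c : R3} {R : ℝ} {j : Fin 3} [CompactSpace (Metric.closedBall (0 : R3) R)]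
    {f g : C(Metric.closedBall (0 : R3) R, ℝ)} (hf : f ∈ dL c R j) (hg : g ∈ dL c R j) :
    f ⊔ g ∈ dL c R j := by
  have h1 : f ⊔ g = f + (g + (-1 : ℝ) • f) ⊔ 0 := by
    ext x
    simp only [ContinuousMap.sup_apply, ContinuousMap.add_apply, ContinuousMap.smul_apply,
      ContinuousMap.zero_apply, smul_eq_mul]
    rcases le_total (f x) (g x) with h | h
    · rw [sup_of_le_right h, sup_of_le_left (by linarith)]
      ring
    · rw [sup_of_le_left h, sup_of_le_right (by linarith)]
      ring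
  rw [h1]
  exact dL_add hf (dL_relu (dL_add hg (dL_smul _ hf)))

private theorem dL_inf {c : R3} {R : ℝ} {j : Fin 3} [CompactSpace (Metric.closedBall (0 : R3) R)]
    {f g : C(Metric.closedBall (0 : R3) R, ℝ)} (hf : f ∈ dL c R j) (hg : g ∈ dL c R j) :
    f ⊓ g ∈ dL c R j := by
  have h1 : f ⊓ g = f + (-1 : ℝ) • ((f + (-1 : ℝ) • g) ⊔ 0) := by
    ext x
    simp only [ContinuousMap.sup_apply, ContinuousMap.inf_apply, ContinuousMap.add_apply,
      ContinuousMap.smul_apply, ContinuousMap.zero_apply, smul_eq_mul]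
    rcases le_total (f x) (g x) with h | h
    · rw [inf_of_le_left h, sup_of_le_right (by linarith)]
      ring
    · rw [inf_of_le_right h, sup_of_le_left (by linarith)]
      ring
  rw [h1]
  exact dL_add hf (dL_smul _ (dL_relu (dL_add hf (dL_smul _ hg))))

private theorem dL_closed {c : R3} {R : ℝ} {j : Fin 3}
    [CompactSpace (Metric.closedBall (0 : R3) R)]
    {f : C(Metric.closedBall (0 : R3) R, ℝ)} (hf : f ∈ closure (dL c R j)) : f ∈ dL c R j := by
  apply App.lim
  intro ε hε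
  obtain ⟨g, hg, hfg⟩ := Metric.mem_closure_iff.mp hf ε hε
  refine ⟨_, hg, fun τ hτ => ?_⟩
  rw [dfe_eq R _ _ (mem_ball hτ), dfe_eq R _ _ (mem_ball hτ), ← Pi.single_sub, Pi.norm_single]
  have h1 := ContinuousMap.norm_coe_le_norm (g - f) ⟨τ, mem_ball hτ⟩
  rw [ContinuousMap.sub_apply] at h1
  rw [dist_comm, dist_eq_norm] at hfg
  linarith

private theorem dL_sep {c : R3} {R : ℝ} (hR : 0 < R) {j : Fin 3} :
    (dL c R j).SeparatesPointsStrongly := by
  intro v x y
  by_cases hxy : x = y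
  · subst hxy
    exact ⟨_, dL_const (v x), rfl, rfl⟩
  · have hx : ‖(x : R3)‖ ≤ R := mem_closedBall_zero_iff.mp x.2
    have hy : ‖(y : R3)‖ ≤ R := mem_closedBall_zero_iff.mp y.2
    have hne : (x : R3) ≠ y := fun h => hxy (Subtype.ext h)
    obtain ⟨S, p, f, hfc, hf, hfxy⟩ := exists_sep j R hR x y hx hy hne
    let F : C(Metric.closedBall (0 : R3) R, ℝ) :=
      ⟨fun z => f z, continuousOn_iff_continuous_domRestrict.mp hfc⟩
    have hF : F ∈ dL c R j := by
      refine App.congr (App.add (App.comp_cl S (App.id c R)) (App.const c R (-p)))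
        fun τ hτ => ?_
      rw [dfe_eq R _ _ (mem_ball hτ), hf τ hτ]
      simp [F]
    have hd : f y - f x ≠ 0 := sub_ne_zero.mpr (Ne.symm hfxy)
    refine ⟨((v y - v x) / (f y - f x)) • F +
      ContinuousMap.const _ (v x - (v y - v x) / (f y - f x) * f x),
      dL_add (dL_smul _ hF) (dL_const _), ?_, ?_⟩
    · simp [F]
    · simp only [ContinuousMap.add_apply, ContinuousMap.smul_apply, smul_eq_mul,
        ContinuousMap.const_apply]
      change (v y - v x) / (f y - f x) * f y + (v x - (v y - v x) / (f y - f x) * f x) = v y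
      field_simp
      ring

theorem App.all (c : R3) (R : ℝ) (hR : 0 < R) (s : R3 → R3)
    (hs : ContinuousOn s (Metric.closedBall 0 R)) : App c R s := by
  have : CompactSpace (Metric.closedBall (0 : R3) R) :=
    isCompact_iff_compactSpace.mp (isCompact_closedBall _ _)
  have htop : ∀ j : Fin 3, closure (dL c R j) = ⊤ := fun j =>
    ContinuousMap.sublattice_closure_eq_top (dL c R j) ⟨_, dL_const 0⟩
      (fun f hf g hg => dL_inf hf hg) (fun f hf g hg => dL_sup hf hg) (dL_sep hR)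
  have hj : ∀ j : Fin 3, App c R (fun τ => Pi.single j (s τ j)) := by
    intro j
    let F : C(Metric.closedBall (0 : R3) R, ℝ) :=
      ⟨fun z => s z j, (continuous_apply j).comp (continuousOn_iff_continuous_domRestrict.mp hs)⟩
    have hF : F ∈ dL c R j := by
      apply dL_closed
      rw [htop j]
      trivial
    refine App.congr hF fun τ hτ => ?_
    rw [dfe_eq R _ _ (mem_ball hτ)]
    rfl
  refine App.congr (App.add (App.add (hj 0) (hj 1)) (hj 2)) fun τ _ => ?_
  funext i
  fin_cases i <;> simp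

end Pool.Agent.H69.TV
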