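import Pool.Agent.H69.TV.Defs

/-! General position of the 25 hyperplanes `hf i = 0`, `i = 0..24` (moment curve).

PROOF. For a 4-subset `I` of `Fin 25` (or 4 distinct indices a,b,c,d) the function
`u ↦ max_{i ∈ I} |hf i u|` is continuous and positive on the unit sphere (if `hf i u = 0` for 4
distinct `i`, the polynomial `u 0 + u 1 X + u 2 X^2 + u 3 X^3` of degree ≤ 3 has 4 roots, so it is 0,
so `u = 0`), so it is `≥ δ_I > 0` on the compact sphere. Take `δ = min_I δ_I` (finitely many I).
If 4 or more indices had `|hf i u| < δ`, a 4-subset of them (`Finset.exists_subset_card_eq`) would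
contradict this.
-/

namespace Pool.Agent.H69.TV

private theorem genpos_zero (u : E) (I : Finset (Fin 25)) (hI : I.card = 4)
    (h : ∀ i ∈ I, hf (i : ℕ) u = 0) : u = 0 := by
  classical
  set p : Polynomial ℝ := Polynomial.C (u 3) * Polynomial.X ^ 3 + Polynomial.C (u 2) *
    Polynomial.X ^ 2 + Polynomial.C (u 1) * Polynomial.X + Polynomial.C (u 0) with hp
  have hinj : Function.Injective (fun i : Fin 25 => ((i : ℕ) : ℝ)) := by
    intro i j hij
    exact Fin.ext (Nat.cast_injective hij)
  have hp0 : p = 0 := by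
    apply Polynomial.eq_zero_of_natDegree_lt_card_of_eval_eq_zero' p
      (I.image (fun i : Fin 25 => ((i : ℕ) : ℝ)))
    · intro x hx
      obtain ⟨i, hi, rfl⟩ := Finset.mem_image.mp hx
      have h1 := h i hi
      unfold hf at h1
      rw [hp]
      simp only [Polynomial.eval_add, Polynomial.eval_mul, Polynomial.eval_C, Polynomial.eval_pow,
        Polynomial.eval_X]
      linarith
    · rw [Finset.card_image_of_injective I hinj, hI]
      have := Polynomial.natDegree_cubic_le (a := u 3) (b := u 2) (c := u 1) (d := u 0)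
      exact lt_of_le_of_lt this (by norm_num)
  have hc : ∀ k, p.coeff k = 0 := by
    intro k
    rw [hp0, Polynomial.coeff_zero]
  have h0 := hc 0
  have h1 := hc 1
  have h2 := hc 2
  have h3 := hc 3
  rw [hp] at h0 h1 h2 h3
  simp only [Polynomial.coeff_add, Polynomial.coeff_C_mul, Polynomial.coeff_X_pow,
    Polynomial.coeff_X, Polynomial.coeff_C] at h0 h1 h2 h3
  norm_num at h0 h1 h2 h3
  funext k
  fin_cases k
  · exact h0
  · exact h1
  · exact h2
  · exact h3

private theorem genpos_cont (i : ℕ) : Continuous (fun u : E => hf i u) := by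
  unfold hf
  fun_prop

private theorem genpos_one (I : Finset (Fin 25)) : ∃ δ : ℝ, 0 < δ ∧ (I.card = 4 → ∀ u : E,
    ‖u‖ = 1 → δ ≤ ∑ i ∈ I, |hf (i : ℕ) u|) := by
  by_cases hI : I.card = 4
  · have hcont : Continuous (fun u : E => ∑ i ∈ I, |hf (i : ℕ) u|) :=
      continuous_finsetSum _ fun i _ => (genpos_cont _).abs
    have hne : (Metric.sphere (0 : E) 1).Nonempty := by
      refine ⟨fun _ => 1, ?_⟩
      rw [mem_sphere_zero_iff_norm, pi_norm_const]
      simp
    obtain ⟨v, hv, hmin⟩ := (isCompact_sphere (0 : E) 1).exists_isMinOn hne hcont.continuousOn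
    rw [mem_sphere_zero_iff_norm] at hv
    refine ⟨∑ i ∈ I, |hf (i : ℕ) v|, ?_, fun _ u hu => ?_⟩
    · have h0 : 0 ≤ ∑ i ∈ I, |hf (i : ℕ) v| := Finset.sum_nonneg fun _ _ => abs_nonneg _
      rcases h0.lt_or_eq with h1 | h1
      · exact h1
      · exfalso
        have h2 := (Finset.sum_eq_zero_iff_of_nonneg (fun i _ => abs_nonneg _)).mp h1.symm
        have h3 := genpos_zero v I hI fun i hi => abs_eq_zero.mp (h2 i hi)
        rw [h3, norm_zero] at hv
        exact zero_ne_one hv
    · exact hmin (mem_sphere_zero_iff_norm.mpr hu)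
  · exact ⟨1, one_pos, fun h => absurd h hI⟩

theorem genpos : ∃ δ : ℝ, 0 < δ ∧ ∀ u : E, ‖u‖ = 1 →
    (Finset.univ.filter (fun i : Fin 25 => |hf i u| < δ)).card ≤ 3 := by
  classical
  choose d hd hd2 using genpos_one
  have hne : (Finset.univ : Finset (Finset (Fin 25))).Nonempty := ⟨∅, Finset.mem_univ _⟩
  set δ : ℝ := (Finset.univ : Finset (Finset (Fin 25))).inf' hne d with hδ
  have hδ0 : 0 < δ := by
    rw [hδ, Finset.lt_inf'_iff]
    exact fun I _ => hd I
  refine ⟨δ / 4, by positivity, fun u hu => ?_⟩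
  by_contra hcon
  push Not at hcon
  obtain ⟨I, hI, hIc⟩ := Finset.exists_subset_card_eq (n := 4) (by omega : 4 ≤
    (Finset.univ.filter (fun i : Fin 25 => |hf i u| < δ / 4)).card)
  have h1 : δ ≤ d I := Finset.inf'_le _ (Finset.mem_univ I)
  have h2 := hd2 I hIc u hu
  have h3 : ∑ i ∈ I, |hf (i : ℕ) u| < ∑ _i ∈ I, δ / 4 := by
    apply Finset.sum_lt_sum_of_nonempty
    · rw [← Finset.card_pos, hIc]
      norm_num
    · intro i hi
      exact (Finset.mem_filter.mp (hI hi)).2
  rw [Finset.sum_const, hIc] at h3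
  have h4 : (4 : ℕ) • (δ / 4) = δ := by
    rw [nsmul_eq_mul]
    push_cast
    ring
  rw [h4] at h3
  linarith

end Pool.Agent.H69.TV
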