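import Pool.Agent.H69.TV.Defs

/-! Near unanimity of Radon points.

PROOFS.
* `near_convex`: if `‖x-s-c u‖<ε`, `‖y-s-d u‖<ε`, `a+b=1`, then with `e = a c + b d`:
  `a x + b y - s - e u = a (x-s-c u) + b (y-s-d u)`; norm `< ε` (one of a, b is > 0).
* `near_add_smul`: replace `c` by `c + d`.
* `radon_near`: `RadonMod u y x` gives `A`, `a ∈ conv(y''A)`, `b ∈ conv(y''Aᶜ)`, `x = a + c u = b + d u`.
  If `i0 ∉ A` then all `y i`, `i ∈ A`, are in the convex set `{Near u s ε}`, so `a` is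
  (`convexHull_min`), so `x = a + c u` is (`near_add_smul`); if `i0 ∈ A` use `b` and `Aᶜ`.
-/

namespace Pool.Agent.H69.TV

theorem near_convex (u s : E) (ε : ℝ) : Convex ℝ {x | Near u s ε x} := by
  rintro x ⟨c, hc⟩ y ⟨d, hd⟩ a b ha hb hab
  refine ⟨a * c + b * d, ?_⟩
  have h1 : a • x + b • y - s - (a * c + b * d) • u =
      a • (x - s - c • u) + b • (y - s - d • u) := by
    have h2 : s = a • s + b • s := by rw [← add_smul, hab, one_smul]
    conv_lhs => rw [h2]
    simp only [smul_sub, add_smul, mul_smul]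
    abel
  rw [h1]
  have h3 : ‖a • (x - s - c • u) + b • (y - s - d • u)‖ ≤
      a * ‖x - s - c • u‖ + b * ‖y - s - d • u‖ := by
    refine (norm_add_le _ _).trans ?_
    rw [norm_smul, norm_smul, Real.norm_of_nonneg ha, Real.norm_of_nonneg hb]
  refine lt_of_le_of_lt h3 ?_
  rcases ha.eq_or_lt with h0 | h0
  · have hb1 : b = 1 := by linarith
    rw [← h0, hb1]
    linarith
  · calc a * ‖x - s - c • u‖ + b * ‖y - s - d • u‖ < a * ε + b * ε :=
          add_lt_add_of_lt_of_le (mul_lt_mul_of_pos_left hc h0)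
            (mul_le_mul_of_nonneg_left hd.le hb)
      _ = ε := by rw [← add_mul, hab, one_mul]

theorem near_add_smul {u s : E} {ε : ℝ} {x : E} (h : Near u s ε x) (d : ℝ) :
    Near u s ε (x + d • u) := by
  obtain ⟨c, hc⟩ := h
  refine ⟨c + d, ?_⟩
  have : x + d • u - s - (c + d) • u = x - s - c • u := by
    rw [add_smul]
    abel
  rw [this]
  exact hc

theorem radon_near {u s : E} {ε : ℝ} {y : Fin 5 → E} {x : E} (i0 : Fin 5)
    (h : ∀ i, i ≠ i0 → Near u s ε (y i)) (hx : RadonMod u y x) : Near u s ε x := by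
  have key : ∀ B : Set (Fin 5), i0 ∉ B → ∀ a ∈ convexHull ℝ (y '' B), Near u s ε a := by
    intro B hB a ha
    have h1 : y '' B ⊆ {x | Near u s ε x} := by
      rintro _ ⟨i, hi, rfl⟩
      exact h i (fun hc => hB (hc ▸ hi))
    exact convexHull_min h1 (near_convex u s ε) ha
  obtain ⟨A, ⟨a, ha, c, hxa⟩, ⟨b, hb, d, hxb⟩⟩ := hx
  by_cases hA : i0 ∈ A
  · rw [hxb]
    exact near_add_smul (key Aᶜ (fun hc => hc hA) b hb) d
  · rw [hxa]
    exact near_add_smul (key A hA a ha) c

end Pool.Agent.H69.TV
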