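import Pool.Agent.H69.TV.NU

/-! The 5 x 5 tree tolerates 3 bad leaves.

PROOF. Call a group `a : Fin 5` bad if it contains at least 2 bad leaves. Since there are at most 3 bad
leaves there is at most one bad group `a0`. Let `a ≠ a0` (not bad): at most one leaf `b0` of the group is
bad; a value `z` of `.glue (t a)` is a Radon point of `y b + δ b`, `‖δ b‖ ≤ η`, `y b` a value of `t a b`,
`Near u s ε (y b)` for `b ≠ b0`, so `Near u s (ε+η) (y b + δ b)`, so `radon_near` gives `Near u s (ε+η) z`.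
The value `x` of the tree is a Radon point of `z a + δ' a`; all but `a0` are `Near u s (ε+2η)`.
-/

namespace Pool.Agent.H69.TV

theorem near_add_noise {u s : E} {ε η : ℝ} {y δ : E} (h : Near u s ε y) (hδ : ‖δ‖ ≤ η) :
    Near u s (ε + η) (y + δ) := by
  obtain ⟨c, hc⟩ := h
  refine ⟨c, ?_⟩
  have e : y + δ - s - c • u = (y - s - c • u) + δ := by abel
  rw [e]
  calc ‖(y - s - c • u) + δ‖ ≤ ‖y - s - c • u‖ + ‖δ‖ := norm_add_le _ _
    _ < ε + η := by linarith

private theorem tree_group (bad : Finset (Fin 5 × Fin 5)) (hbad : bad.card ≤ 3) :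
    ∃ a0 : Fin 5, ∀ a, a ≠ a0 → ∃ b0 : Fin 5, ∀ b, b ≠ b0 → (a, b) ∉ bad := by
  classical
  by_contra hcon
  push Not at hcon
  have key : ∀ a : Fin 5, (∀ b0 : Fin 5, ∃ b, b ≠ b0 ∧ (a, b) ∈ bad) →
      2 ≤ (bad.filter (fun p => p.1 = a)).card := by
    intro a ha
    obtain ⟨b1, -, hb1⟩ := ha 0
    obtain ⟨b2, hb2, hb2'⟩ := ha b1
    have hne : (a, b1) ≠ (a, b2) := by
      intro h
      exact hb2 (Prod.ext_iff.1 h).2.symm
    have hsub : ({(a, b1), (a, b2)} : Finset (Fin 5 × Fin 5)) ⊆ bad.filter (fun p => p.1 = a) := by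
      intro p hp
      rw [Finset.mem_insert, Finset.mem_singleton] at hp
      rw [Finset.mem_filter]
      rcases hp with rfl | rfl
      · exact ⟨hb1, rfl⟩
      · exact ⟨hb2', rfl⟩
    have := Finset.card_le_card hsub
    rwa [Finset.card_pair hne] at this
  obtain ⟨a1, -, h1⟩ := hcon 0
  obtain ⟨a2, h21, h2⟩ := hcon a1
  have k1 := key a1 h1
  have k2 := key a2 h2
  have hdisj : Disjoint (bad.filter (fun p => p.1 = a1)) (bad.filter (fun p => p.1 = a2)) := by
    rw [Finset.disjoint_left]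
    intro p hp hp'
    rw [Finset.mem_filter] at hp hp'
    exact h21 (hp'.2.symm.trans hp.2)
  have hsub : (bad.filter (fun p => p.1 = a1)) ∪ (bad.filter (fun p => p.1 = a2)) ⊆ bad :=
    Finset.union_subset (Finset.filter_subset _ _) (Finset.filter_subset _ _)
  have hc := Finset.card_le_card hsub
  rw [Finset.card_union_of_disjoint hdisj] at hc
  omega

theorem tree_near {η ε : ℝ} {u s : E} (t : Fin 5 → Fin 5 → Term)
    (bad : Finset (Fin 5 × Fin 5)) (hbad : bad.card ≤ 3)
    (h : ∀ a b, (a, b) ∉ bad → ∀ y, Val η u (t a b) y → Near u s ε y) :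
    ∀ x, Val η u (tree t) x → Near u s (ε + 2 * η) x := by
  intro x hx
  obtain ⟨a0, ha0⟩ := tree_group bad hbad
  obtain ⟨z, hz, δ, hδ, hR⟩ := hx
  refine radon_near a0 (fun a ha => ?_) hR
  obtain ⟨b0, hb0⟩ := ha0 a ha
  obtain ⟨y, hy, δ', hδ', hR'⟩ := hz a
  have h1 : Near u s (ε + η) (z a) := by
    refine radon_near b0 (fun b hb => ?_) hR'
    exact near_add_noise (h a b (hb0 b hb) (y b) (hy b)) (hδ' b)
  have h2 := near_add_noise h1 (hδ a)
  have e : ε + 2 * η = ε + η + η := by ring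
  rw [e]
  exact h2

end Pool.Agent.H69.TV
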