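import Pool.Agent.H69.TV.Defs

/-! Basic properties of `Val`: all by induction on the term (`induction t generalizing x`, `simp only [Val]`).

* `Val_mono`: more noise is allowed.
* `Val_add_smul`: values are only defined modulo `u` (needs no induction: in each case absorb `d` in the
  existential constant `c`; for the gates use `RadonMod_add_smul`).
* `Val_smul`: `Val` depends only on the line of `u`: `c • (a • u) = (c * a) • u` and `c • u = (c/a) • (a • u)`.
-/

namespace Pool.Agent.H69.TV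

theorem RadonMod_add_smul {u : E} {y : Fin 5 → E} {x : E} (h : RadonMod u y x) (d : ℝ) :
    RadonMod u y (x + d • u) := by
  obtain ⟨A, ⟨a, ha, c, hc⟩, ⟨b, hb, c', hc'⟩⟩ := h
  refine ⟨A, ⟨a, ha, c + d, ?_⟩, ⟨b, hb, c' + d, ?_⟩⟩
  · rw [hc, add_smul]; abel
  · rw [hc', add_smul]; abel

/-- the existential constant only sees the line of `u` -/
theorem ex_smul_iff {u : E} {a : ℝ} (ha : a ≠ 0) (x z : E) :
    (∃ c : ℝ, x = z + c • (a • u)) ↔ ∃ c : ℝ, x = z + c • u := by
  constructor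
  · rintro ⟨c, hc⟩
    exact ⟨c * a, by rw [hc, mul_smul]⟩
  · rintro ⟨c, hc⟩
    refine ⟨c / a, ?_⟩
    rw [hc, smul_smul, div_mul_cancel₀ c ha]

theorem RadonMod_smul {u : E} {a : ℝ} (ha : a ≠ 0) (y : Fin 5 → E) (x : E) :
    RadonMod (a • u) y x ↔ RadonMod u y x := by
  simp only [RadonMod, ex_smul_iff ha]

theorem Val_mono {η η' : ℝ} (hη : η ≤ η') {u : E} {t : Term} {x : E} (h : Val η u t x) :
    Val η' u t x := by
  induction t generalizing x with
  | const b => simpa only [Val] using h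
  | add s t ihs iht =>
    simp only [Val] at h ⊢
    obtain ⟨y, z, hy, hz, c, hc⟩ := h
    exact ⟨y, z, ihs hy, iht hz, c, hc⟩
  | smul r t ih =>
    simp only [Val] at h ⊢
    obtain ⟨y, hy, c, hc⟩ := h
    exact ⟨y, ih hy, c, hc⟩
  | clamp p hp w ih =>
    simp only [Val] at h ⊢
    obtain ⟨y, hy, δ, hδ, hR⟩ := h
    exact ⟨y, ih hy, δ, hδ.trans hη, hR⟩
  | glue w ih =>
    simp only [Val] at h ⊢
    obtain ⟨y, hy, δ, hδ, hR⟩ := h
    exact ⟨y, fun i => ih i (hy i), δ, fun i => (hδ i).trans hη, hR⟩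

theorem Val_add_smul {η : ℝ} {u : E} {t : Term} {x : E} (h : Val η u t x) (d : ℝ) :
    Val η u t (x + d • u) := by
  cases t with
  | const b =>
    simp only [Val] at h ⊢
    obtain ⟨c, hc⟩ := h
    exact ⟨c + d, by rw [hc, add_smul]; abel⟩
  | add s t =>
    simp only [Val] at h ⊢
    obtain ⟨y, z, hy, hz, c, hc⟩ := h
    exact ⟨y, z, hy, hz, c + d, by rw [hc, add_smul]; abel⟩
  | smul r t =>
    simp only [Val] at h ⊢
    obtain ⟨y, hy, c, hc⟩ := h
    exact ⟨y, hy, c + d, by rw [hc, add_smul]; abel⟩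
  | clamp p hp w =>
    simp only [Val] at h ⊢
    obtain ⟨y, hy, δ, hδ, hR⟩ := h
    exact ⟨y, hy, δ, hδ, RadonMod_add_smul hR d⟩
  | glue w =>
    simp only [Val] at h ⊢
    obtain ⟨y, hy, δ, hδ, hR⟩ := h
    exact ⟨y, hy, δ, hδ, RadonMod_add_smul hR d⟩

theorem Val_smul {η : ℝ} {u : E} {a : ℝ} (ha : a ≠ 0) (t : Term) (x : E) :
    Val η (a • u) t x ↔ Val η u t x := by
  induction t generalizing x with
  | const b => simp only [Val, ex_smul_iff ha]
  | add s t ihs iht => simp only [Val, ihs, iht, ex_smul_iff ha]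
  | smul r t ih => simp only [Val, ih, ex_smul_iff ha]
  | clamp p hp w ih => simp only [Val, ih, RadonMod_smul ha]
  | glue w ih => simp only [Val, ih, RadonMod_smul ha]

end Pool.Agent.H69.TV
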